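import Mathlib
import Pool.Agent.Lib.MP_d4c1d0_nt.Final

/-!
# MP_d4c1d0_nt: the sign sum S(p) grows at least like p log p

`S k` is the double sum over `1 ≤ h, j ≤ k - 1` of `(-1) ^ (j + 1 + ⌊h j / k⌋)`.
For all large odd primes `p` we prove `S p ≥ (p log p) / 20`; in particular `S p / p → ∞`.
-/

set_option autoImplicit false

open Finset Real Filter

namespace Pool.Agent.Results.MP_d4c1d0_nt.LogGrowth

/-- The sum over `1 ≤ h, j ≤ k - 1` of `(-1) ^ (j + 1 + ⌊h j / k⌋)`, where `h j / k` is the real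
quotient and `⌊ ⌋₊` the floor function. -/
noncomputable def S (k : ℕ) : ℤ :=
  ∑ h ∈ Finset.Ico 1 k, ∑ j ∈ Finset.Ico 1 k,
    (-1 : ℤ) ^ (j + 1 + ⌊((h : ℝ) * (j : ℝ)) / (k : ℝ)⌋₊)

lemma S_eq (k : ℕ) (hk : 1 ≤ k) : S k = Pool.Agent.ThetaSum.S k := by
  unfold S Pool.Agent.ThetaSum.S
  have e : Finset.Ico 1 k = Finset.Icc 1 (k - 1) := by
    ext x
    simp only [Finset.mem_Ico, Finset.mem_Icc]
    omega
  rw [e]
  refine Finset.sum_congr rfl fun h _ => Finset.sum_congr rfl fun j _ => ?_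
  have : ⌊((h : ℝ) * (j : ℝ)) / (k : ℝ)⌋₊ = h * j / k := by
    rw [← Nat.cast_mul, Nat.floor_div_natCast, Nat.floor_natCast]
  rw [this]

theorem log_bound : ∃ K : ℕ, ∀ p : ℕ, p.Prime → Odd p → K < p →
    (p : ℝ) * Real.log p / 20 ≤ (Pool.Agent.ThetaSum.S p : ℝ) := by
  obtain ⟨T0, hT0⟩ := Pool.Agent.ThetaSum.eventually_TBig.exists_forall_of_atTop
  refine ⟨⌈Real.exp ((T0 : ℝ) ^ 4 + 1)⌉₊, ?_⟩
  intro p hpr hodd hp
  obtain ⟨m, hpm⟩ := hodd
  have hpR : (0 : ℝ) < p := by exact_mod_cast hpr.pos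
  have hexp : Real.exp ((T0 : ℝ) ^ 4 + 1) ≤ p := by
    have := Nat.le_ceil (Real.exp ((T0 : ℝ) ^ 4 + 1))
    have h2 : ((⌈Real.exp ((T0 : ℝ) ^ 4 + 1)⌉₊ : ℕ) : ℝ) ≤ p := by exact_mod_cast hp.le
    linarith
  have hlog : (T0 : ℝ) ^ 4 + 1 ≤ Real.log p := by
    rw [← Real.exp_le_exp, Real.exp_log hpR]
    exact hexp
  set N : ℕ := ⌊Real.log p⌋₊ with hN
  have hlp0 : 0 ≤ Real.log p := by
    have : (0 : ℝ) ≤ (T0 : ℝ) ^ 4 := by positivity
    linarith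
  have hN1 : (N : ℝ) ≤ Real.log p := Nat.floor_le hlp0
  have hN2 : Real.log p < N + 1 := Nat.lt_floor_add_one _
  set T : ℕ := Nat.sqrt (Nat.sqrt N) with hTdef
  have hT04 : T0 ^ 4 ≤ N := by
    rw [hN]
    apply Nat.le_floor
    push_cast
    linarith
  have hT0T : T0 ≤ T := by
    rw [hTdef, Nat.le_sqrt, Nat.le_sqrt]
    calc T0 * T0 * (T0 * T0) = T0 ^ 4 := by ring
      _ ≤ N := hT04
  have hTB := hT0 T hT0T
  have hTpow : T ^ 4 ≤ N := by
    have h1 : T * T ≤ Nat.sqrt N := Nat.sqrt_le _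
    have h2 : Nat.sqrt N * Nat.sqrt N ≤ N := Nat.sqrt_le _
    calc T ^ 4 = (T * T) * (T * T) := by ring
      _ ≤ Nat.sqrt N * Nat.sqrt N := Nat.mul_le_mul h1 h1
      _ ≤ N := h2
  have hTpow2 : N + 1 ≤ (T + 1) ^ 4 := by
    have h1 : Nat.sqrt N < (T + 1) * (T + 1) := Nat.lt_succ_sqrt _
    have h2 : N < (Nat.sqrt N + 1) * (Nat.sqrt N + 1) := Nat.lt_succ_sqrt _
    calc N + 1 ≤ (Nat.sqrt N + 1) * (Nat.sqrt N + 1) := h2
      _ ≤ ((T + 1) * (T + 1)) * ((T + 1) * (T + 1)) := Nat.mul_le_mul h1 h1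
      _ = (T + 1) ^ 4 := by ring
  have hT1 : (1000 : ℝ) ≤ T := hTB.h1
  have hlog1 : (T : ℝ) ^ 4 ≤ Real.log p := by
    refine le_trans ?_ hN1
    exact_mod_cast hTpow
  have hlog2 : Real.log p ≤ 2 * (T : ℝ) ^ 4 := by
    have h1 : (N : ℝ) + 1 ≤ ((T : ℝ) + 1) ^ 4 := by exact_mod_cast hTpow2
    have h2 : ((T : ℝ) + 1) ^ 4 ≤ 2 * (T : ℝ) ^ 4 := by
      have h3 : (T : ℝ) + 1 ≤ 1.1 * T := by linarith
      calc ((T : ℝ) + 1) ^ 4 ≤ (1.1 * T) ^ 4 := pow_le_pow_left₀ (by positivity) h3 4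
        _ = 1.4641 * (T : ℝ) ^ 4 := by ring
        _ ≤ 2 * (T : ℝ) ^ 4 := by
            apply mul_le_mul_of_nonneg_right (by norm_num) (by positivity)
    linarith
  have hAA := Pool.Agent.ThetaSum.AA_lower hpr hpm hTB hlog1 hlog2
  rw [Pool.Agent.ThetaSum.S_eq_AA hpr hpm]
  have hpi : 0 < π ^ 2 := by positivity
  have hpi2 : π ^ 2 < 10 := by
    have := Real.pi_lt_d2
    have h0 := Real.pi_pos
    nlinarith
  have h0 : Real.log p / 16 ≤ Pool.Agent.ThetaSum.AA p m := by linarith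
  have h1 : (8 * p / π ^ 2) * (Real.log p / 16) ≤ (8 * p / π ^ 2) * Pool.Agent.ThetaSum.AA p m :=
    mul_le_mul_of_nonneg_left h0 (by positivity)
  refine le_trans ?_ h1
  have e : (8 * (p : ℝ) / π ^ 2) * (Real.log p / 16) = p * Real.log p / (2 * π ^ 2) := by
    field_simp
    ring
  rw [e]
  apply div_le_div_of_nonneg_left (by positivity) (by positivity)
  linarith

/-- For all large odd primes `p` we have `S p ≥ (p log p) / 20`; hence for every natural number `n`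
there is a bound `K` with `S p > n p` for every odd prime `p > K`, and `S p / p` tends to infinity
as `p` runs through the odd primes. -/
theorem result :
    (∃ K : ℕ, ∀ p : ℕ, p.Prime → Odd p → K < p → (p : ℝ) * Real.log p / 20 ≤ (S p : ℝ)) ∧
    (∀ n : ℕ, ∃ K : ℕ, ∀ p : ℕ, p.Prime → Odd p → K < p → (n : ℤ) * (p : ℤ) < S p) ∧
    Tendsto (fun p : ℕ => (S p : ℝ) / (p : ℝ)) (atTop ⊓ 𝓟 {p : ℕ | p.Prime ∧ Odd p}) atTop := by
  obtain ⟨K, hK⟩ := log_bound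
  have hK' : ∀ p : ℕ, p.Prime → Odd p → K < p → (p : ℝ) * Real.log p / 20 ≤ (S p : ℝ) := by
    intro p hp hodd h
    rw [S_eq p hp.one_lt.le]
    exact hK p hp hodd h
  refine ⟨⟨K, hK'⟩, ?_, ?_⟩
  · intro n
    obtain ⟨L, hL⟩ := Pool.Agent.ThetaSum.S_large n
    refine ⟨L, fun p hp hodd h => ?_⟩
    rw [S_eq p hp.one_lt.le]
    exact hL p h.le hp hodd
  · have h1 : Tendsto (fun p : ℕ => Real.log (p : ℝ) / 20) (atTop ⊓ 𝓟 {p : ℕ | p.Prime ∧ Odd p})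
        atTop := by
      have h2 : Tendsto (fun p : ℕ => Real.log (p : ℝ)) atTop atTop :=
        Real.tendsto_log_atTop.comp tendsto_natCast_atTop_atTop
      exact (h2.atTop_div_const (by norm_num)).mono_left inf_le_left
    refine tendsto_atTop_mono' _ ?_ h1
    rw [Filter.EventuallyLE, Filter.eventually_inf_principal]
    filter_upwards [Filter.eventually_gt_atTop K] with p hp hpp
    have hpR : (0 : ℝ) < p := by exact_mod_cast hpp.1.pos
    rw [le_div_iff₀ hpR]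
    have := hK' p hpp.1 hpp.2 hp
    linarith

end Pool.Agent.Results.MP_d4c1d0_nt.LogGrowth
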